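import Pool.Agent.Run7.h230.QF.Stm

/-!
# Project QF: families of flats (pieces LIM, ORB, MIN, REC, PIG)
-/

set_option autoImplicit false

namespace Run7.h590.QF

open Pool.Agent.Run7.h230.QF
open Pool.Agent.H97R3.VR (IsMedian IsConvex Btw)
open Pool.Agent.TH97.VR (walls)
open Pointwise

/-- cluster points of sequences of functions with values in finite sets -/
theorem cluster {ι W : Type*} [Countable ι] (F : ℕ → ι → W) (B : ι → Set W)
    (hB : ∀ i, (B i).Finite) (hF : ∀ n i, F n i ∈ B i) :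
    ∃ f : ι → W, ∀ S : Set ι, S.Finite → ∀ N : ℕ, ∃ n, N ≤ n ∧ ∀ i ∈ S, F n i = f i := by
  let _ : TopologicalSpace W := ⊥
  have _ : DiscreteTopology W := ⟨rfl⟩
  have hc : IsCompact (Set.pi Set.univ B) := isCompact_univ_pi fun i => (hB i).isCompact
  obtain ⟨f, -, φ, hφ, ht⟩ := hc.tendsto_subseq (x := F) fun n => by
    rw [Set.mem_univ_pi]; exact hF n
  refine ⟨f, fun S hS N => ?_⟩
  have h1 : ∀ i, ∀ᶠ n in Filter.atTop, F (φ n) i = f i := by
    intro i
    have := (tendsto_pi_nhds.1 ht) i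
    rw [nhds_discrete, Filter.tendsto_pure] at this
    exact this
  have h2 : ∀ᶠ n in Filter.atTop, ∀ i ∈ S, F (φ n) i = f i :=
    (Filter.eventually_all_finite hS).2 fun i _ => h1 i
  obtain ⟨n, hn1, hn2⟩ := (h2.and (Filter.eventually_ge_atTop N)).exists
  exact ⟨φ n, hn2.trans (hφ.id_le n), hn1⟩

/-- the size of a point of the grid -/
def nrm {k : ℕ} (z : Fin k → ℤ) : ℕ := ∑ i, (z i).natAbs

theorem le_nrm {k : ℕ} (z : Fin k → ℤ) (i : Fin k) : |z i| ≤ (nrm z : ℤ) := by
  rw [Int.abs_eq_natAbs]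
  exact_mod_cast Finset.single_le_sum (f := fun i => (z i).natAbs) (fun _ _ => Nat.zero_le _)
    (Finset.mem_univ i)

theorem nrm_eq {k : ℕ} (z : Fin k → ℤ) : (nrm z : ℤ) = ∑ i, |z i| := by
  unfold nrm
  push_cast
  exact Finset.sum_congr rfl fun i _ => rfl

theorem win_finite (k R : ℕ) : {z : Fin k → ℤ | ∀ i, |z i| ≤ (R : ℤ)}.Finite := by
  refine (Set.Finite.pi' (t := fun _ : Fin k => Set.Icc (-(R : ℤ)) R)
    (fun i => Set.finite_Icc _ _)).subset ?_
  intro z hz i
  exact abs_le.1 (hz i)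

variable {V : Type} {G : Type} [Group G] [MulAction G V] {Γ : SimpleGraph V} {k : ℕ}

theorem dist_sm (hA : Act G Γ) (g : G) (a b : V) : Γ.dist (g • a) (g • b) = Γ.dist a b := by
  rw [Pool.Agent.H97R3.VR.dist_smul hA.med.conn hA.adj]

theorem ball_fin (hA : Act G Γ) (n : ℕ) : ∀ v, {w | Γ.dist v w ≤ n}.Finite := by
  induction n with
  | zero =>
    intro v
    refine (Set.finite_singleton v).subset fun w hw => ?_
    have h1 : Γ.dist v w = 0 := Nat.le_zero.1 hw
    exact ((hA.med.conn.dist_eq_zero_iff).1 h1).symm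
  | succ n ih =>
    intro v
    refine ((Set.finite_singleton v).union
      ((hA.loc v).biUnion fun u _ => ih u)).subset fun w hw => ?_
    obtain ⟨p, hp⟩ := (hA.med.conn v w).exists_walk_length_eq_dist
    cases p with
    | nil => exact Or.inl rfl
    | @cons _ u _ h p' =>
      right
      rw [Set.mem_iUnion₂]
      refine ⟨u, h, ?_⟩
      have h1 := SimpleGraph.dist_le p'
      rw [SimpleGraph.Walk.length_cons] at hp
      have hw' : Γ.dist v w ≤ n + 1 := hw
      show Γ.dist u w ≤ n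
      omega

theorem ballK_fin (hA : Act G Γ) {K : Set V} (hK : K.Finite) (n : ℕ) :
    {w | ∃ u ∈ K, Γ.dist u w ≤ n}.Finite := by
  refine (hK.biUnion fun u _ => ball_fin hA n u).subset fun w hw => ?_
  obtain ⟨u, hu, h⟩ := hw
  rw [Set.mem_iUnion₂]
  exact ⟨u, hu, h⟩

theorem memball (hA : Act G Γ) {f : (Fin k → ℤ) → V} (hf : IsFlat Γ f) {K : Set V} {g : G}
    (hg : g • f 0 ∈ K) (z : Fin k → ℤ) :
    g • f z ∈ {w | ∃ u ∈ K, Γ.dist u w ≤ nrm z} := by
  refine ⟨_, hg, ?_⟩
  rw [dist_sm hA]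
  have h1 := hf 0 z
  have h2 : ∑ i, |(0 : Fin k → ℤ) i - z i| = (nrm z : ℤ) := by
    rw [nrm_eq]
    exact Finset.sum_congr rfl fun i _ => by simp
  rw [h2] at h1
  exact (by exact_mod_cast h1.le)

/-- LIM -/
theorem t_LIM : S_LIM := by
  intro V G _ _ Γ hA m hbox
  choose F hF using fun n : ℕ => hbox (2 * n)
  obtain ⟨K, hK, hGK⟩ := hA.orb
  choose g hg using fun n : ℕ => hGK (F n (fun _ => n))
  classical
  set h : ℕ → (Fin m → ℤ) → V := fun n z =>
    if ∀ a, |z a| ≤ (n : ℤ) then g n • F n (fun a => (z a + n).toNat)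
    else g n • F n (fun _ => n) with hh
  obtain ⟨f, hf⟩ := cluster h (fun z : Fin m → ℤ => {w | ∃ u ∈ K, Γ.dist u w ≤ nrm z})
    (fun z => ballK_fin hA hK _) (by
      intro n z
      simp only [hh]
      split_ifs with hz
      · refine ⟨_, hg n, ?_⟩
        rw [dist_sm hA]
        have h1 := hF n (fun _ => n) (fun a => (z a + n).toNat) (fun a => by omega) (fun a => by
          have := abs_le.1 (hz a)
          omega)
        have h2 : ∑ a, |(((n : ℕ) : ℤ)) - (((z a + n).toNat : ℕ) : ℤ)| = (nrm z : ℤ) := by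
          rw [nrm_eq]
          refine Finset.sum_congr rfl fun a _ => ?_
          have := abs_le.1 (hz a)
          rw [Int.toNat_of_nonneg (by omega), ← abs_neg]
          congr 1
          ring
        rw [h2] at h1
        exact (by exact_mod_cast h1.le)
      · exact ⟨_, hg n, by rw [SimpleGraph.dist_self]; exact Nat.zero_le _⟩)
  refine ⟨f, fun z w => ?_⟩
  obtain ⟨n, hn, hn2⟩ := hf {z, w} (Set.toFinite _) (nrm z + nrm w)
  rw [← hn2 z (by simp), ← hn2 w (by simp)]
  have hz : ∀ a, |z a| ≤ (n : ℤ) := fun a => (le_nrm z a).trans (by exact_mod_cast (by omega))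
  have hw : ∀ a, |w a| ≤ (n : ℤ) := fun a => (le_nrm w a).trans (by exact_mod_cast (by omega))
  simp only [hh]
  rw [if_pos hz, if_pos hw, dist_sm hA, hF n _ _ (fun a => by
    have := abs_le.1 (hz a)
    omega) (fun a => by
    have := abs_le.1 (hw a)
    omega)]
  refine Finset.sum_congr rfl fun a _ => ?_
  have h1 := abs_le.1 (hz a)
  have h2 := abs_le.1 (hw a)
  rw [Int.toNat_of_nonneg (by omega), Int.toNat_of_nonneg (by omega)]
  congr 1
  ring

theorem orb_sys (hA : Act G Γ) {f : (Fin k → ℤ) → V} (hf : IsFlat Γ f) : Sys G Γ (Orb G f) where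
  flat := by
    intro h hh z w
    obtain ⟨g, b, hg⟩ := hh (nrm z + nrm w)
    rw [hg z (fun i => (le_nrm z i).trans (by push_cast; omega)),
      hg w (fun i => (le_nrm w i).trans (by push_cast; omega))]
    exact (hf.shift b).smul hA g z w
  closed := by
    intro h hh R
    obtain ⟨k', hk, hk2⟩ := hh R
    obtain ⟨g, b, hg⟩ := hk R
    exact ⟨g, b, fun z hz => by rw [hk2 z hz, hg z hz]⟩
  smul := by
    intro h hh g R
    obtain ⟨g', b', hg⟩ := hh R
    refine ⟨g * g', b', fun z hz => ?_⟩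
    show g • h z = (g * g') • f (z + b')
    rw [hg z hz, mul_smul]
  shift := by
    intro h hh b R
    obtain ⟨g', b', hg⟩ := hh (R + nrm b)
    refine ⟨g', b + b', fun z hz => ?_⟩
    show h (z + b) = g' • f (z + (b + b'))
    have e1 : ∀ i, |(z + b) i| ≤ ((R + nrm b : ℕ) : ℤ) := by
      intro i
      have h1 := hz i
      have h2 := le_nrm b i
      have h3 := abs_add_le (z i) (b i)
      push_cast
      rw [Pi.add_apply]
      omega
    rw [hg _ e1]
    show g' • f (z + b + b') = g' • f (z + (b + b'))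
    rw [add_assoc]

theorem orb_self (f : (Fin k → ℤ) → V) : f ∈ Orb G f := fun _ => ⟨1, 0, fun z _ => by simp⟩

/-- ORB -/
theorem t_ORB : S_ORB := by
  intro V G _ _ Γ hA k f hf
  exact ⟨orb_sys hA hf, orb_self f⟩

theorem sys_orb {L : Set ((Fin k → ℤ) → V)} (hL : Sys G Γ L) {f : (Fin k → ℤ) → V}
    (hf : f ∈ L) : Orb G f ⊆ L := by
  intro h hh
  apply hL.closed
  intro R
  obtain ⟨g, b, hg⟩ := hh R
  exact ⟨_, hL.smul _ (hL.shift f hf b) g, hg⟩

/-- MIN -/
theorem t_MIN : S_MIN := by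
  intro V G _ _ Γ hA k L hL hne
  classical
  let _ : TopologicalSpace V := ⊥
  have _ : DiscreteTopology V := ⟨rfl⟩
  obtain ⟨K, hK, hGK⟩ := hA.orb
  have hC : IsCompact (Set.pi Set.univ
      (fun z : Fin k → ℤ => {w | ∃ u ∈ K, Γ.dist u w ≤ nrm z})) :=
    isCompact_univ_pi fun z => (ballK_fin hA hK _).isCompact
  set C := Set.pi Set.univ
      (fun z : Fin k → ℤ => {w | ∃ u ∈ K, Γ.dist u w ≤ nrm z}) with hCdef
  have hmeet : ∀ M : Set ((Fin k → ℤ) → V), Sys G Γ M → M.Nonempty → (M ∩ C).Nonempty := by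
    rintro M hM ⟨h, hh⟩
    obtain ⟨g, hg⟩ := hGK (h 0)
    refine ⟨fun z => g • h z, hM.smul h hh g, ?_⟩
    rw [hCdef, Set.mem_univ_pi]
    exact fun z => memball hA (hM.flat h hh) hg z
  have hclosed : ∀ M : Set ((Fin k → ℤ) → V), Sys G Γ M → IsClosed M := by
    intro M hM
    rw [← closure_subset_iff_isClosed]
    intro h hh
    apply hM.closed
    intro R
    rw [mem_closure_iff] at hh
    obtain ⟨k', hk1, hk2⟩ := hh (⋂ z ∈ {z : Fin k → ℤ | ∀ i, |z i| ≤ (R : ℤ)},
        {k' | k' z = h z})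
      ((win_finite k R).isOpen_biInter fun z _ => by
        have := (isOpen_discrete {h z}).preimage (continuous_apply (A := fun _ : Fin k → ℤ => V) z)
        exact this) (by simp)
    refine ⟨k', hk2, fun z h1 => ?_⟩
    rw [Set.mem_iInter₂] at hk1
    exact (hk1 z h1).symm
  obtain ⟨M, hM⟩ := zorn_superset {M : Set ((Fin k → ℤ) → V) | Sys G Γ M ∧ M.Nonempty ∧ M ⊆ L} (by
    intro c hc hchain
    rcases c.eq_empty_or_nonempty with rfl | hcne
    · exact ⟨L, ⟨hL, hne, subset_rfl⟩, by simp⟩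
    · refine ⟨⋂₀ c, ⟨⟨?_, ?_, ?_, ?_⟩, ?_, ?_⟩, fun s hs => Set.sInter_subset_of_mem hs⟩
      · intro h hh
        obtain ⟨M, hM⟩ := hcne
        exact (hc hM).1.flat h (hh M hM)
      · intro h hh M hM
        refine (hc hM).1.closed h fun R => ?_
        obtain ⟨k', hk, hk2⟩ := hh R
        exact ⟨k', hk M hM, hk2⟩
      · intro h hh g M hM
        exact (hc hM).1.smul h (hh M hM) g
      · intro h hh b M hM
        exact (hc hM).1.shift h (hh M hM) b
      · have _ : Nonempty c := hcne.to_subtype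
        have := IsCompact.nonempty_iInter_of_directed_nonempty_isCompact_isClosed
          (fun M : c => M.1 ∩ C) (by
            intro M N
            rcases hchain.total M.2 N.2 with h | h
            · exact ⟨M, subset_rfl, Set.inter_subset_inter_left _ h⟩
            · exact ⟨N, Set.inter_subset_inter_left _ h, subset_rfl⟩)
          (fun M => hmeet _ (hc M.2).1 (hc M.2).2.1)
          (fun M => hC.inter_left (hclosed _ (hc M.2).1))
          (fun M => (hclosed _ (hc M.2).1).inter hC.isClosed)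
        obtain ⟨h, hh⟩ := this
        refine ⟨h, fun M hM => ?_⟩
        rw [Set.mem_iInter] at hh
        exact (hh ⟨M, hM⟩).1
      · obtain ⟨M, hM⟩ := hcne
        exact (Set.sInter_subset_of_mem hM).trans (hc hM).2.2)
  refine ⟨M, hM.prop.2.2, ⟨hM.prop.1, fun h hh => ?_⟩, hM.prop.2.1⟩
  have h1 := sys_orb hM.prop.1 hh
  exact hM.le_of_le (y := Orb G h) ⟨orb_sys hA (hM.prop.1.flat h hh), ⟨h, orb_self h⟩,
    h1.trans hM.prop.2.2⟩ h1

/-- REC -/
theorem t_REC : S_REC := by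
  intro V G _ _ Γ hA k L hL S
  by_contra hcon
  push Not at hcon
  choose h hh p hp hno using hcon
  obtain ⟨K, hK, hGK⟩ := hA.orb
  choose g hg using fun n => hGK (h n 0)
  choose g' hg' using fun n => hGK (p n 0)
  obtain ⟨f, hf⟩ := cluster (fun n z => (g n • h n z, g' n • p n z))
    (fun z : Fin k → ℤ => {w | ∃ u ∈ K, Γ.dist u w ≤ nrm z} ×ˢ
      {w | ∃ u ∈ K, Γ.dist u w ≤ nrm z})
    (fun z => (ballK_fin hA hK _).prod (ballK_fin hA hK _)) (fun n z =>
      ⟨memball hA (hL.sys.flat _ (hh n)) (hg n) z,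
        memball hA (hL.sys.flat _ (hp n)) (hg' n) z⟩)
  have key : ∀ R N : ℕ, ∃ n, N ≤ n ∧ ∀ z : Fin k → ℤ, (∀ i, |z i| ≤ (R : ℤ)) →
      (f z).1 = g n • h n z ∧ (f z).2 = g' n • p n z := by
    intro R N
    obtain ⟨n, hn, hn2⟩ := hf _ (win_finite k R) N
    refine ⟨n, hn, fun z h1 => ?_⟩
    rw [← hn2 z h1]
    exact ⟨rfl, rfl⟩
  have hh' : (fun z => (f z).1) ∈ L := by
    apply hL.sys.closed
    intro R
    obtain ⟨n, _, hn⟩ := key R 0
    exact ⟨_, hL.sys.smul _ (hh n) (g n), fun z h1 => (hn z h1).1⟩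
  have hp' : (fun z => (f z).2) ∈ L := by
    apply hL.sys.closed
    intro R
    obtain ⟨n, _, hn⟩ := key R 0
    exact ⟨_, hL.sys.smul _ (hp n) (g' n), fun z h1 => (hn z h1).2⟩
  obtain ⟨a, b, hab⟩ := hL.min _ hh' hp' S
  obtain ⟨n, hn, hn2⟩ := key (S + nrm b) (nrm b)
  apply hno n ((a * g n)⁻¹ * g' n) b (fun i => (le_nrm b i).trans (by exact_mod_cast hn))
  intro z hz
  show h n (z + b) = ((a * g n)⁻¹ * g' n) • p n z
  have e1 : ∀ i, |(z + b) i| ≤ ((S + nrm b : ℕ) : ℤ) := by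
    intro i
    have h1 := hz i
    have h2 := le_nrm b i
    have h3 := abs_add_le (z i) (b i)
    push_cast
    rw [Pi.add_apply]
    omega
  have e2 : ∀ i, |z i| ≤ ((S + nrm b : ℕ) : ℤ) := fun i => (hz i).trans (by push_cast; omega)
  have e3 := (hn2 _ e1).1
  have e4 := (hn2 _ e2).2
  have e5 : (f z).2 = a • (f (z + b)).1 := hab z hz
  rw [e4, e3, ← mul_smul] at e5
  rw [mul_smul, e5, inv_smul_smul]

/-- PIG -/
theorem t_PIG : S_PIG := by
  intro V G _ _ Γ hA k f hf R p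
  obtain ⟨K, hK, hGK⟩ := hA.orb
  choose g hg using fun n => hGK (f (p n))
  obtain ⟨φ, hφ⟩ := cluster (fun n z => g n • f (z + p n))
    (fun z : Fin k → ℤ => {w | ∃ u ∈ K, Γ.dist u w ≤ nrm z})
    (fun z => ballK_fin hA hK _) (fun n z =>
      memball hA (hf.shift (p n)) (by simpa using hg n) z)
  refine ⟨{n | ∀ z : Fin k → ℤ, (∀ i, |z i| ≤ (R : ℤ)) → g n • f (z + p n) = φ z}, ?_, ?_⟩
  · rw [Set.infinite_iff_exists_gt]
    intro N
    obtain ⟨n, hn, hn2⟩ := hφ _ (win_finite k R) (N + 1)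
    exact ⟨n, fun z hz => hn2 z hz, by omega⟩
  · intro n hn m hm
    refine ⟨(g m)⁻¹ * g n, fun z hz => ?_⟩
    show ((g m)⁻¹ * g n) • f (z + p n) = f (z + p m)
    rw [mul_smul, hn z hz, ← hm z hz, inv_smul_smul]

end Run7.h590.QF
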